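import Mathlib
import Pool.Agent.H24.OddInd

namespace Pool.Agent.Results.MP_5d7181_co.Limit

open Pool.Agent.H24.OddInd Filter Topology

theorem result : Tendsto (fun k : ℕ => (alphaOd (cube (2 * k)) : ℝ) / 2 ^ (2 * k)) atTop
    (𝓝 (1 / 2)) := by
  have h1 : Tendsto (fun k : ℕ => (1 / 2 : ℝ) - 1 / (k : ℝ)) atTop (𝓝 (1 / 2)) := by
    simpa using (tendsto_const_nhds (x := (1 / 2 : ℝ))).sub tendsto_one_div_atTop_nhds_zero_nat
  refine tendsto_of_tendsto_of_tendsto_of_le_of_le' h1 tendsto_const_nhds ?_ ?_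
  · filter_upwards [eventually_ge_atTop 1] with k hk
    have hm : 1 ≤ Nat.log 2 (2 * k) := Nat.le_log_of_pow_le (by norm_num) (by omega)
    have h := lower (d := 2 * k) (even_two_mul k) hm (Nat.pow_log_le_self 2 (by omega))
    have h2 := Nat.lt_pow_succ_log_self (b := 2) (by norm_num) (2 * k)
    generalize Nat.log 2 (2 * k) = m at *
    have h' : (2 : ℝ) ^ m * 2 ^ (2 * k) ≤ 2 ^ (m + 1) * alphaOd (cube (2 * k)) + 2 ^ (2 * k) := by
      exact_mod_cast h
    have h2' : (2 : ℝ) * k ≤ 2 ^ (m + 1) := by exact_mod_cast h2.le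
    have hk' : (1 : ℝ) ≤ k := by exact_mod_cast hk
    have hp : (0 : ℝ) < 2 ^ (2 * k) := by positivity
    have hq : (0 : ℝ) < 2 ^ (m + 1) := by positivity
    have h3 : (1 : ℝ) / 2 - 1 / 2 ^ (m + 1) ≤ alphaOd (cube (2 * k)) / 2 ^ (2 * k) := by
      rw [le_div_iff₀ hp, ← mul_le_mul_iff_right₀ hq]
      have : (2 : ℝ) ^ (m + 1) * ((1 / 2 - 1 / 2 ^ (m + 1)) * 2 ^ (2 * k)) =
          2 ^ m * 2 ^ (2 * k) - 2 ^ (2 * k) := by
        field_simp
        ring
      linarith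
    have h4 : (1 : ℝ) / 2 ^ (m + 1) ≤ 1 / k := one_div_le_one_div_of_le (by linarith) (by linarith)
    linarith
  · filter_upwards [eventually_ge_atTop 1] with k hk
    have h := upper (d := 2 * k) (even_two_mul k) (by omega)
    have h' : (2 : ℝ) * (2 * k) * alphaOd (cube (2 * k)) + 2 ^ (2 * k) ≤ 2 * k * 2 ^ (2 * k) := by
      exact_mod_cast h
    have hk' : (1 : ℝ) ≤ k := by exact_mod_cast hk
    have hp : (0 : ℝ) < 2 ^ (2 * k) := by positivity
    rw [div_le_iff₀ hp]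
    nlinarith

end Pool.Agent.Results.MP_5d7181_co.Limit
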