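import Mathlib
import Pool.Agent.H24.OddInd

namespace Pool.Agent.Results.MP_5d7181_co.PowerOfTwo

open Pool.Agent.H24.OddInd

theorem result : ∀ m : ℕ, 1 ≤ m →
    (alphaOd (cube (2 ^ m)) : ℝ) = (1 - 1 / (2 : ℝ) ^ m) * 2 ^ (2 ^ m - 1) := by
  intro m hm
  have hd : Even (2 ^ m) := (Nat.even_pow' (by omega)).2 (by decide)
  have h1 := upper hd (by positivity)
  have h2 := lower hd hm le_rfl
  have h3 : 2 ^ (m + 1) * alphaOd (cube (2 ^ m)) + 2 ^ 2 ^ m = 2 ^ m * 2 ^ 2 ^ m := by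
    rw [pow_succ'] at h2 ⊢
    omega
  have h4 : (2 : ℝ) ^ (m + 1) * alphaOd (cube (2 ^ m)) + 2 ^ 2 ^ m = 2 ^ m * 2 ^ 2 ^ m := by
    exact_mod_cast h3
  have h5 : (2 : ℝ) ^ 2 ^ m = 2 * 2 ^ (2 ^ m - 1) := by
    rw [← pow_succ', Nat.sub_add_cancel Nat.one_le_two_pow]
  rw [h5, pow_succ] at h4
  field_simp
  linarith

end Pool.Agent.Results.MP_5d7181_co.PowerOfTwo
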